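import Mathlib

set_option autoImplicit false

/-!
# The discrete Wirtinger inequality on a cycle
-/

open Finset ZMod Complex

namespace Q105.Relax

variable {N : ℕ} [NeZero N]

/-- Fourier coefficients. -/
noncomputable def ft (Φ : ZMod N → ℂ) (k : ZMod N) : ℂ :=
  ∑ j : ZMod N, stdAddChar (-(j * k)) * Φ j

lemma conj_char (x : ZMod N) :
    (starRingEnd ℂ) (stdAddChar x : ℂ) = stdAddChar (-x) := by
  rw [AddChar.map_neg_eq_inv, stdAddChar_apply, Complex.inv_def]
  have h : Complex.normSq ((toCircle x : Circle) : ℂ) = 1 := by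
    rw [Complex.normSq_eq_norm_sq, Circle.norm_coe]; norm_num
  rw [h]; simp

lemma parseval (Φ : ZMod N → ℂ) :
    ∑ k, ft Φ k * (starRingEnd ℂ) (ft Φ k) = (N : ℂ) * ∑ j, Φ j * (starRingEnd ℂ) (Φ j) := by
  have h1 : ∀ k, ft Φ k * (starRingEnd ℂ) (ft Φ k) =
      ∑ i : ZMod N, ∑ j : ZMod N,
        Φ i * (starRingEnd ℂ) (Φ j) * stdAddChar (k * (j - i)) := by
    intro k
    unfold ft
    rw [map_sum, Finset.sum_mul_sum]
    refine Finset.sum_congr rfl fun i _ => Finset.sum_congr rfl fun j _ => ?_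
    rw [map_mul, conj_char, neg_neg]
    have : (stdAddChar (k * (j - i)) : ℂ) = stdAddChar (-(i * k)) * stdAddChar (j * k) := by
      rw [← AddChar.map_add_eq_mul]; congr 1; ring
    rw [this]; ring
  simp_rw [h1]
  rw [Finset.sum_comm, Finset.mul_sum]
  refine Finset.sum_congr rfl fun i _ => ?_
  rw [Finset.sum_comm]
  simp_rw [← Finset.mul_sum]
  rw [Finset.sum_eq_single i]
  · rw [AddChar.sum_mulShift _ (isPrimitive_stdAddChar N), if_pos (sub_self i), ZMod.card]
    ring
  · intro j _ hj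
    rw [AddChar.sum_mulShift _ (isPrimitive_stdAddChar N), if_neg (sub_ne_zero.2 hj)]
    simp
  · intro h; exact absurd (Finset.mem_univ i) h

lemma parseval' (Φ : ZMod N → ℂ) :
    ∑ k, Complex.normSq (ft Φ k) = (N : ℝ) * ∑ j, Complex.normSq (Φ j) := by
  have h := parseval Φ
  simp_rw [Complex.mul_conj] at h
  exact_mod_cast h

lemma ft_shift (Φ : ZMod N → ℂ) (k : ZMod N) :
    ft (fun j => Φ (j + 1) - Φ j) k = (stdAddChar k - 1) * ft Φ k := by
  have h : ∑ j : ZMod N, stdAddChar (-(j * k)) * Φ (j + 1) = stdAddChar k * ft Φ k := by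
    unfold ft
    rw [Finset.mul_sum]
    refine Fintype.sum_equiv (Equiv.addRight 1) _ _ fun j => ?_
    simp only [Equiv.coe_addRight]
    rw [← mul_assoc, ← AddChar.map_add_eq_mul]
    congr 2
    ring
  unfold ft at h ⊢
  simp_rw [mul_sub, Finset.sum_sub_distrib]
  rw [h]; ring

lemma normSq_exp_sub_one (θ : ℝ) :
    Complex.normSq (Complex.exp ((θ : ℝ) * I) - 1) = 2 - 2 * Real.cos θ := by
  have h : Complex.exp ((θ : ℝ) * I) - 1 = ⟨Real.cos θ - 1, Real.sin θ⟩ := by
    rw [Complex.exp_mul_I, ← Complex.ofReal_cos, ← Complex.ofReal_sin]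
    apply Complex.ext <;> simp only [Complex.sub_re, Complex.add_re, Complex.mul_re, Complex.I_re,
      Complex.I_im, Complex.ofReal_re, Complex.ofReal_im, Complex.one_re, Complex.sub_im,
      Complex.add_im, Complex.mul_im, Complex.one_im] <;> ring
  rw [h, Complex.normSq_mk]
  nlinarith [Real.sin_sq_add_cos_sq θ]

lemma normSq_char_sub_one (k : ZMod N) :
    Complex.normSq (stdAddChar k - 1) = 2 - 2 * Real.cos (2 * Real.pi * k.val / N) := by
  have h : (stdAddChar k : ℂ) = Complex.exp ((2 * Real.pi * k.val / N : ℝ) * I) := by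
    have := stdAddChar_coe (N := N) (k.val : ℤ)
    rw [Int.cast_natCast, ZMod.natCast_zmod_val] at this
    rw [this]
    congr 1
    push_cast
    ring
  rw [h, normSq_exp_sub_one]

lemma cos_le (k : ZMod N) (hk : k ≠ 0) :
    Real.cos (2 * Real.pi * k.val / N) ≤ Real.cos (2 * Real.pi / N) := by
  have hN : 0 < (N : ℝ) := by exact_mod_cast Nat.pos_of_ne_zero (NeZero.ne N)
  have h1 : 1 ≤ k.val := Nat.one_le_iff_ne_zero.2 (by rwa [Ne, ZMod.val_eq_zero])
  have h2 : k.val < N := ZMod.val_lt k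
  have h1' : (1 : ℝ) ≤ k.val := by exact_mod_cast h1
  have h2' : (k.val : ℝ) + 1 ≤ N := by exact_mod_cast h2
  have hpi := Real.pi_pos
  by_cases hc : 2 * (k.val : ℝ) ≤ N
  · apply Real.cos_le_cos_of_nonneg_of_le_pi
    · exact div_nonneg (by positivity) hN.le
    · rw [div_le_iff₀ hN]; nlinarith
    · exact div_le_div_of_nonneg_right (by nlinarith) hN.le
  · have e : Real.cos (2 * Real.pi * k.val / N) = Real.cos (2 * Real.pi * (N - k.val) / N) := by
      rw [← Real.cos_two_pi_sub]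
      congr 1
      field_simp
    rw [e]
    apply Real.cos_le_cos_of_nonneg_of_le_pi
    · exact div_nonneg (by positivity) hN.le
    · rw [div_le_iff₀ hN]; nlinarith
    · exact div_le_div_of_nonneg_right (by nlinarith) hN.le

theorem wirtinger (g : ZMod N → ℝ) (hg : ∑ j, g j = 0) :
    2 * (1 - Real.cos (2 * Real.pi / N)) * ∑ j, g j ^ 2 ≤ ∑ j, (g (j + 1) - g j) ^ 2 := by
  have hN : 0 < (N : ℝ) := by exact_mod_cast Nat.pos_of_ne_zero (NeZero.ne N)
  have p1 := parseval' (fun j => (g j : ℂ))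
  have p2 := parseval' (fun j => ((g (j + 1) : ℂ) - (g j : ℂ)))
  have q1 : ∀ j, Complex.normSq (g j : ℂ) = g j ^ 2 := fun j => by
    rw [Complex.normSq_ofReal]; ring
  have q2 : ∀ j, Complex.normSq ((g (j + 1) : ℂ) - (g j : ℂ)) = (g (j + 1) - g j) ^ 2 := fun j => by
    rw [← Complex.ofReal_sub, Complex.normSq_ofReal]; ring
  simp_rw [q1] at p1
  simp_rw [q2] at p2
  have h0 : ft (fun j => (g j : ℂ)) 0 = 0 := by
    unfold ft
    simp only [mul_zero, neg_zero, AddChar.map_zero_eq_one, one_mul]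
    exact_mod_cast hg
  have hk : ∀ k : ZMod N, 2 * (1 - Real.cos (2 * Real.pi / N)) *
      Complex.normSq (ft (fun j => (g j : ℂ)) k) ≤
      Complex.normSq (ft (fun j => ((g (j + 1) : ℂ) - (g j : ℂ))) k) := by
    intro k
    rw [ft_shift (fun j => (g j : ℂ)), Complex.normSq_mul, normSq_char_sub_one]
    by_cases h : k = 0
    · rw [h, h0]; simp
    · apply mul_le_mul_of_nonneg_right _ (Complex.normSq_nonneg _)
      have := cos_le k h
      linarith
  have hs := Finset.sum_le_sum fun k (_ : k ∈ (Finset.univ : Finset (ZMod N))) => hk k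
  rw [← Finset.mul_sum, p1, p2] at hs
  have : (N : ℝ) * (2 * (1 - Real.cos (2 * Real.pi / N)) * ∑ j, g j ^ 2) ≤
      (N : ℝ) * ∑ j, (g (j + 1) - g j) ^ 2 := by linarith
  exact le_of_mul_le_mul_left this hN

end Q105.Relax
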