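import Mathlib

set_option autoImplicit false

/-!
# A closed walk of a connected graph using every dart exactly once
-/

open Finset

namespace Q105.Relax

variable {V : Type*} [DecidableEq V] {G : SimpleGraph V}

/-- A closed walk with no repeated dart, whose dart set is closed under reversal. -/
def Good {b : V} (w : G.Walk b b) : Prop :=
  w.darts.Nodup ∧ ∀ d ∈ w.darts, d.symm ∈ w.darts

omit [DecidableEq V] in
lemma exists_dart (hG : G.Connected) {b : V} (w : G.Walk b b) (h : ∃ d : G.Dart, d ∉ w.darts) :
    ∃ (u v : V) (h : G.Adj u v), u ∈ w.support ∧ (⟨(u, v), h⟩ : G.Dart) ∉ w.darts := by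
  by_contra hcon
  push Not at hcon
  obtain ⟨d, hd⟩ := h
  have key : ∀ x, x ∈ w.support → ∀ y, G.Walk x y → y ∈ w.support := by
    intro x hx y p
    induction p with
    | nil => exact hx
    | cons hxy p ih =>
      apply ih
      have := hcon _ _ hxy hx
      exact w.dart_snd_mem_support_of_mem_darts this
  have hfst : d.fst ∈ w.support := by
    obtain ⟨p⟩ := hG.preconnected b d.fst
    exact key b w.start_mem_support _ p
  exact hd (hcon d.fst d.snd d.adj hfst)

lemma step (hG : G.Connected) {b : V} (w : G.Walk b b) (hw : Good w)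
    (h : ∃ d : G.Dart, d ∉ w.darts) :
    ∃ w' : G.Walk b b, Good w' ∧ w'.length = w.length + 2 := by
  obtain ⟨u, v, huv, hu, hd⟩ := exists_dart hG w h
  let d : G.Dart := ⟨(u, v), huv⟩
  have hd' : d.symm ∉ w.darts := fun hh => hd (by
    have := hw.2 _ hh
    rwa [SimpleGraph.Dart.symm_symm] at this)
  refine ⟨(w.takeUntil u hu).append (.cons huv (.cons huv.symm (w.dropUntil u hu))), ?_, ?_⟩
  · have hp : ((w.takeUntil u hu).append
        (.cons huv (.cons huv.symm (w.dropUntil u hu)))).darts.Perm (d :: d.symm :: w.darts) := by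
      rw [SimpleGraph.Walk.darts_append, SimpleGraph.Walk.darts_cons, SimpleGraph.Walk.darts_cons]
      have e : w.darts = (w.takeUntil u hu).darts ++ (w.dropUntil u hu).darts := by
        rw [← SimpleGraph.Walk.darts_append, SimpleGraph.Walk.take_spec]
      rw [e]
      refine List.perm_middle.trans (List.Perm.cons _ ?_)
      exact List.perm_middle
    constructor
    · rw [hp.nodup_iff]
      rw [List.nodup_cons, List.nodup_cons]
      refine ⟨?_, hd', hw.1⟩
      rw [List.mem_cons]
      rintro (hh | hh)
      · exact d.symm_ne hh.symm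
      · exact hd hh
    · intro e he
      rw [hp.mem_iff] at he ⊢
      rw [List.mem_cons, List.mem_cons] at he ⊢
      rcases he with rfl | rfl | he
      · right; left; rfl
      · left; exact SimpleGraph.Dart.symm_symm _
      · right; right; exact hw.2 _ he
  · rw [SimpleGraph.Walk.length_append, SimpleGraph.Walk.length_cons,
      SimpleGraph.Walk.length_cons]
    have e : w.length = (w.takeUntil u hu).length + (w.dropUntil u hu).length := by
      rw [← SimpleGraph.Walk.length_append, SimpleGraph.Walk.take_spec]
    omega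

variable [Fintype V] [DecidableRel G.Adj]

lemma exists_tour_aux (hG : G.Connected) {b : V} : ∀ (k : ℕ) (w : G.Walk b b), Good w →
    Fintype.card G.Dart - w.length ≤ k → ∃ w' : G.Walk b b, Good w' ∧ ∀ d : G.Dart, d ∈ w'.darts := by
  intro k
  induction k with
  | zero =>
    intro w hw hk
    by_cases h : ∃ d : G.Dart, d ∉ w.darts
    · exfalso
      obtain ⟨w', hw', hl⟩ := step hG w hw h
      have : w'.darts.length ≤ Fintype.card G.Dart := by
        classical
        exact hw'.1.length_le_card
      rw [SimpleGraph.Walk.length_darts] at this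
      omega
    · push Not at h
      exact ⟨w, hw, h⟩
  | succ k ih =>
    intro w hw hk
    by_cases h : ∃ d : G.Dart, d ∉ w.darts
    · obtain ⟨w', hw', hl⟩ := step hG w hw h
      exact ih w' hw' (by omega)
    · push Not at h
      exact ⟨w, hw, h⟩

lemma exists_tour (hG : G.Connected) (b : V) :
    ∃ w : G.Walk b b, w.darts.Nodup ∧ ∀ d : G.Dart, d ∈ w.darts := by
  obtain ⟨w, hw, h⟩ := exists_tour_aux hG (b := b) _ .nil ⟨by simp, by simp⟩ le_rfl
  exact ⟨w, hw.1, h⟩

omit [DecidableEq V] [Fintype V] [DecidableRel G.Adj] in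
lemma sum_walk {a b : V} (w : G.Walk a b) (F : V → V → ℝ) :
    ∑ j ∈ Finset.range w.length, F (w.getVert j) (w.getVert (j + 1)) =
      (w.darts.map (fun d => F d.fst d.snd)).sum := by
  induction w with
  | nil => simp
  | cons h p ih =>
    rw [SimpleGraph.Walk.length_cons, Finset.sum_range_succ', SimpleGraph.Walk.darts_cons,
      List.map_cons, List.sum_cons, ← ih, add_comm]
    congr 1
    · simp

lemma sum_tour {b : V} (w : G.Walk b b) (hn : w.darts.Nodup) (ha : ∀ d : G.Dart, d ∈ w.darts)
    (F : V → V → ℝ) :
    ∑ j ∈ Finset.range w.length, F (w.getVert j) (w.getVert (j + 1)) =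
      ∑ u, ∑ v, if G.Adj u v then F u v else 0 := by
  rw [sum_walk]
  have h1 : (w.darts.map (fun d => F d.fst d.snd)).sum = ∑ d : G.Dart, F d.fst d.snd := by
    classical
    rw [← List.sum_toFinset _ hn]
    refine Finset.sum_congr ?_ fun _ _ => rfl
    ext d; simp [ha d]
  rw [h1, ← Finset.sum_product', ← Finset.sum_filter]
  refine Finset.sum_bij (fun d _ => d.toProd) ?_ ?_ ?_ ?_
  · intro d _; simp [d.adj]
  · intro d _ e _ h; exact SimpleGraph.Dart.ext _ _ h
  · intro p hp
    simp only [Finset.mem_filter] at hp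
    exact ⟨⟨p, hp.2⟩, Finset.mem_univ _, rfl⟩
  · intro d _; rfl

lemma length_tour {b : V} (w : G.Walk b b) (hn : w.darts.Nodup) (ha : ∀ d : G.Dart, d ∈ w.darts) :
    w.length = 2 * G.edgeFinset.card := by
  classical
  rw [← SimpleGraph.dart_card_eq_twice_card_edges, ← SimpleGraph.Walk.length_darts,
    ← List.toFinset_card_of_nodup hn, ← Finset.card_univ]
  congr 1
  ext d; simp [ha d]

end Q105.Relax
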