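import Pool.Agent.Q105.RelaxA
import Pool.Agent.Q105.RelaxB

set_option autoImplicit false

/-!
# Relaxation time bound from the doubled Euler tour
-/

open Finset

namespace Q105.Relax

/-- sums over `ZMod N` as sums over a range -/
lemma sum_zmod (N : ℕ) [NeZero N] (x : ℕ → ℝ) :
    ∑ j : ZMod N, x j.val = ∑ j ∈ Finset.range N, x j := by
  refine Finset.sum_bij (fun j _ => j.val) ?_ ?_ ?_ ?_
  · intro j _; exact Finset.mem_range.2 (ZMod.val_lt j)
  · intro i _ j _ h; exact ZMod.val_injective N h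
  · intro j hj
    exact ⟨(j : ZMod N), Finset.mem_univ _, ZMod.val_cast_of_lt (Finset.mem_range.1 hj)⟩
  · intro j _; rfl

/-- Wirtinger for a periodic sequence. -/
lemma wirtinger_seq (N : ℕ) (hN : N ≠ 0) (x : ℕ → ℝ) (hx : x N = x 0)
    (h0 : ∑ j ∈ Finset.range N, x j = 0) :
    2 * (1 - Real.cos (2 * Real.pi / N)) * ∑ j ∈ Finset.range N, x j ^ 2 ≤
      ∑ j ∈ Finset.range N, (x (j + 1) - x j) ^ 2 := by
  have : NeZero N := ⟨hN⟩
  have h := wirtinger (N := N) (fun j => x j.val) (by rw [sum_zmod N x]; exact h0)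
  have e1 : ∑ j : ZMod N, x j.val ^ 2 = ∑ j ∈ Finset.range N, x j ^ 2 :=
    sum_zmod N (fun j => x j ^ 2)
  have e2 : ∑ j : ZMod N, (x (j + 1).val - x j.val) ^ 2 =
      ∑ j ∈ Finset.range N, (x (j + 1) - x j) ^ 2 := by
    rw [← sum_zmod N (fun j => (x (j + 1) - x j) ^ 2)]
    refine Finset.sum_congr rfl fun j _ => ?_
    by_cases hj : j.val + 1 < N
    · have : (j + 1).val = j.val + 1 := by
        have := ZMod.natCast_zmod_val j
        conv_lhs => rw [← this]
        rw [← Nat.cast_succ, ZMod.val_natCast_of_lt hj]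
      rw [this]
    · have hj' : j.val + 1 = N := by
        have := ZMod.val_lt j
        omega
      have : (j + 1).val = 0 := by
        have := ZMod.natCast_zmod_val j
        rw [← this, ← Nat.cast_succ, Nat.succ_eq_add_one, hj', ZMod.natCast_self, ZMod.val_zero]
      rw [this, hj', hx]
  simpa only [e1, e2] using h

theorem main_ineq {V : Type*} [DecidableEq V] [Fintype V] (G : SimpleGraph V) [DecidableRel G.Adj]
    (hG : G.Connected) (hm : 0 < G.edgeFinset.card) (f : V → ℝ) :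
    ∃ c : ℝ, (1 - Real.cos (Real.pi / G.edgeFinset.card)) *
      ∑ v, (G.degree v : ℝ) * (f v - c) ^ 2 ≤
        (1 / 2 : ℝ) * ∑ u, ∑ v, (if G.Adj u v then (f u - f v) ^ 2 else 0) := by
  obtain ⟨b⟩ := hG.nonempty
  obtain ⟨w, hn, ha⟩ := exists_tour hG b
  have hl := length_tour w hn ha
  set m := G.edgeFinset.card with hmdef
  have hN : w.length ≠ 0 := by omega
  have hNr : (w.length : ℝ) ≠ 0 := by exact_mod_cast hN
  let s : ℝ := ∑ j ∈ Finset.range w.length, f (w.getVert j)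
  let c : ℝ := s / w.length
  refine ⟨c, ?_⟩
  have h := wirtinger_seq w.length hN (fun j => f (w.getVert j) - c)
    (by simp) (by
      rw [Finset.sum_sub_distrib, Finset.sum_const, Finset.card_range, nsmul_eq_mul]
      show s - (w.length : ℝ) * (s / w.length) = 0
      field_simp
      ring)
  have e1 := sum_tour w hn ha (fun u _ => (f u - c) ^ 2)
  have e2 := sum_tour w hn ha (fun u v => (f u - f v) ^ 2)
  have e3 : ∑ j ∈ Finset.range w.length,
      (f (w.getVert (j + 1)) - c - (f (w.getVert j) - c)) ^ 2 =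
      ∑ u, ∑ v, if G.Adj u v then (f u - f v) ^ 2 else 0 := by
    rw [← e2]
    refine Finset.sum_congr rfl fun j _ => ?_
    ring
  have e4 : ∑ u, ∑ v, (if G.Adj u v then (f u - c) ^ 2 else 0) =
      ∑ v, (G.degree v : ℝ) * (f v - c) ^ 2 := by
    refine Finset.sum_congr rfl fun u _ => ?_
    rw [← Finset.sum_filter, Finset.sum_const, nsmul_eq_mul]
    congr 2
    rw [SimpleGraph.degree, SimpleGraph.neighborFinset_eq_filter]
  rw [e3, e1, e4] at h
  have e5 : (2 * Real.pi / (w.length : ℝ)) = Real.pi / m := by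
    rw [hl]; push_cast
    have : (m : ℝ) ≠ 0 := by exact_mod_cast hm.ne'
    field_simp
  rw [e5] at h
  linarith

theorem final (ε : ℝ) (hε : ε > 0) : ∃ M : ℕ, ∀ (n : ℕ) (G : SimpleGraph (Fin n))
    [DecidableRel G.Adj], G.Connected → M ≤ G.edgeFinset.card →
      ∀ f : Fin n → ℝ, ∃ c : ℝ,
        ∑ v, (G.degree v : ℝ) * (f v - c) ^ 2 ≤
          (1 + ε) * (2 * (G.edgeFinset.card : ℝ) ^ 2 / Real.pi ^ 2) *
            ((1 / 2 : ℝ) * ∑ u, ∑ v, (if G.Adj u v then (f u - f v) ^ 2 else 0)) := by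
  refine ⟨⌈Real.pi * (1 + 1 / ε)⌉₊, fun n G _ hG hM f => ?_⟩
  have hpi := Real.pi_pos
  have hM' : Real.pi * (1 + 1 / ε) ≤ G.edgeFinset.card := Nat.ceil_le.1 hM
  have hpos : 0 < Real.pi * (1 + 1 / ε) := by positivity
  have hm : 0 < G.edgeFinset.card := by
    have : (0 : ℝ) < G.edgeFinset.card := lt_of_lt_of_le hpos hM'
    exact_mod_cast this
  obtain ⟨c, hc⟩ := main_ineq G hG hm f
  refine ⟨c, ?_⟩
  set m : ℝ := (G.edgeFinset.card : ℝ) with hmdef
  have hm' : 0 < m := lt_of_lt_of_le hpos hM'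
  set S := ∑ v, (G.degree v : ℝ) * (f v - c) ^ 2 with hS
  set E := (1 / 2 : ℝ) * ∑ u, ∑ v, (if G.Adj u v then (f u - f v) ^ 2 else 0) with hE
  have hS0 : 0 ≤ S := Finset.sum_nonneg fun v _ => by positivity
  set t := Real.pi / m with ht
  have ht0 : 0 < t := by positivity
  have hte : t ≤ ε / (1 + ε) := by
    rw [ht, div_le_div_iff₀ hm' (by positivity)]
    have : Real.pi * (1 + 1 / ε) * ε = Real.pi * (1 + ε) := by field_simp; ring
    nlinarith
  have ht1 : t ≤ 1 := hte.trans (by rw [div_le_one (by positivity)]; linarith)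
  have hcos := Real.cos_bound (x := t) (by rw [abs_of_pos ht0]; exact ht1)
  rw [abs_of_pos ht0] at hcos
  have hcos2 := (abs_le.1 hcos).2
  have key : 1 ≤ (1 + ε) * (2 * m ^ 2 / Real.pi ^ 2) * (1 - Real.cos t) := by
    have h1 : t ^ 2 / 2 - t ^ 4 * (5 / 96) ≤ 1 - Real.cos t := by linarith
    have h2 : 2 * m ^ 2 / Real.pi ^ 2 = 2 / t ^ 2 := by
      rw [ht]; field_simp
    rw [h2]
    have h3 : (1 + ε) * (2 / t ^ 2) * (t ^ 2 / 2 - t ^ 4 * (5 / 96)) =
        (1 + ε) * (1 - t ^ 2 * (5 / 48)) := by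
      field_simp; ring
    have h4 : (1 + ε) * t ≤ ε := by
      rw [le_div_iff₀ (by positivity)] at hte; linarith
    have h5 : (1 + ε) * (t ^ 2 * (5 / 48)) ≤ ε := by nlinarith [mul_pos ht0 ht0]
    calc (1 : ℝ) ≤ (1 + ε) * (1 - t ^ 2 * (5 / 48)) := by nlinarith
      _ = (1 + ε) * (2 / t ^ 2) * (t ^ 2 / 2 - t ^ 4 * (5 / 96)) := h3.symm
      _ ≤ _ := mul_le_mul_of_nonneg_left h1 (by positivity)
  calc S = 1 * S := (one_mul S).symm
    _ ≤ (1 + ε) * (2 * m ^ 2 / Real.pi ^ 2) * (1 - Real.cos t) * S :=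
        mul_le_mul_of_nonneg_right key hS0
    _ = (1 + ε) * (2 * m ^ 2 / Real.pi ^ 2) * ((1 - Real.cos t) * S) := by ring
    _ ≤ _ := mul_le_mul_of_nonneg_left hc (by positivity)

end Q105.Relax
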