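import Mathlib

set_option autoImplicit false

/-!
# Multithreshold graphs: the number of traces of translates
-/

open Finset

namespace Q105.Thresh

/-- `G` is `k`-threshold. -/
def IsKThr {V : Type} (k : ℕ) (G : SimpleGraph V) : Prop :=
  ∃ θ : Fin k → ℝ, StrictMono θ ∧ ∃ r : V → ℝ, ∀ v w, v ≠ w →
    (G.Adj v w ↔ Odd (univ.filter (fun i => θ i ≤ r v + r w)).card)

/-- Few translates have different traces. -/
lemma inj_bound {U W : Type} [Fintype U] [Fintype W] (k : ℕ) (θ : Fin k → ℝ) (r : W → ℝ)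
    (s : U → ℝ) (hd : ∀ u u', (∀ w, (Odd (univ.filter (fun i => θ i ≤ s u + r w)).card ↔
      Odd (univ.filter (fun i => θ i ≤ s u' + r w)).card)) → u = u') :
    Fintype.card U ≤ k * Fintype.card W + 1 := by
  classical
  let A : U → Finset (Fin k × W) := fun u => univ.filter (fun p => θ p.1 ≤ s u + r p.2)
  have hA : ∀ u, (A u).card < k * Fintype.card W + 1 := by
    intro u
    have := card_le_univ (A u)
    rw [Fintype.card_prod, Fintype.card_fin] at this
    omega
  have hinj : Function.Injective (fun u => (⟨(A u).card, hA u⟩ : Fin (k * Fintype.card W + 1))) := by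
    intro u u' h
    have hc : (A u).card = (A u').card := congrArg Fin.val h
    have hsame : A u = A u' := by
      rcases le_total (s u) (s u') with hle | hle
      · apply eq_of_subset_of_card_le
        · intro p hp
          rw [mem_filter] at hp ⊢
          exact ⟨mem_univ _, by linarith [hp.2]⟩
        · exact hc.ge
      · symm
        apply eq_of_subset_of_card_le
        · intro p hp
          rw [mem_filter] at hp ⊢
          exact ⟨mem_univ _, by linarith [hp.2]⟩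
        · exact hc.le
    apply hd
    intro w
    have : univ.filter (fun i => θ i ≤ s u + r w) = univ.filter (fun i => θ i ≤ s u' + r w) := by
      ext i
      have h1 : ((i, w) ∈ A u ↔ (i, w) ∈ A u') := by rw [hsame]
      rw [mem_filter, mem_filter] at h1 ⊢
      simpa using h1
    rw [this]
  have := Fintype.card_le_of_injective _ hinj
  rwa [Fintype.card_fin] at this

lemma thr_compl {V : Type} [Finite V] (k : ℕ) (G : SimpleGraph V) (h : IsKThr k G) :
    IsKThr (k + 1) Gᶜ := by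
  obtain ⟨θ, hθ, r, hr⟩ := h
  obtain ⟨L1, hL1⟩ := (Set.finite_range θ).bddBelow
  obtain ⟨L2, hL2⟩ := (Set.finite_range (fun p : V × V => r p.1 + r p.2)).bddBelow
  let L := min L1 L2 - 1
  have h1 : ∀ i, L < θ i := by
    intro i
    have := hL1 ⟨i, rfl⟩
    have h2 := min_le_left L1 L2
    show min L1 L2 - 1 < θ i
    linarith
  have h2 : ∀ v w, L ≤ r v + r w := by
    intro v w
    have := hL2 ⟨(v, w), rfl⟩
    have h3 := min_le_right L1 L2
    show min L1 L2 - 1 ≤ r v + r w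
    simp only at this
    linarith
  refine ⟨Fin.cons L θ, ?_, r, ?_⟩
  · intro i j
    refine Fin.cases ?_ (fun i => ?_) i
    · refine Fin.cases ?_ (fun j => ?_) j
      · intro hij; exact absurd hij (lt_irrefl _)
      · intro _
        rw [Fin.cons_zero, Fin.cons_succ]
        exact h1 j
    · refine Fin.cases ?_ (fun j => ?_) j
      · intro hij; exact absurd hij (by simp)
      · intro hij
        rw [Fin.cons_succ, Fin.cons_succ]
        exact hθ (Fin.succ_lt_succ_iff.1 hij)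
  · intro v w hvw
    have hcard : (univ.filter (fun i : Fin (k + 1) => (Fin.cons L θ : Fin (k + 1) → ℝ) i ≤
        r v + r w)).card = (univ.filter (fun i : Fin k => θ i ≤ r v + r w)).card + 1 := by
      rw [Fin.card_filter_univ_succ]
      simp only [Fin.cons_zero, Fin.cons_succ, h2 v w, if_true]
    rw [SimpleGraph.compl_adj, hcard, Nat.odd_add_one, hr v w hvw]
    simp [hvw]

/-- The first integer rank. -/
def ra (h : ℕ) : Fin (2 * h) ⊕ (Fin h × Fin h) → ℤ
  | Sum.inl w => -(w : ℤ)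
  | Sum.inr p => (h : ℤ) + p.2

/-- The second integer rank. -/
def rb (h : ℕ) : Fin (2 * h) ⊕ (Fin h × Fin h) → ℤ
  | Sum.inl w => (w : ℤ) - 2 * h
  | Sum.inr p => 2 * (h : ℤ) - p.1

/-- Graph of the pairs with large rank sum. -/
def thr {V : Type} (a : V → ℤ) : SimpleGraph V where
  Adj x y := x ≠ y ∧ 0 ≤ a x + a y
  symm := ⟨fun x y h => ⟨h.1.symm, by rw [add_comm]; exact h.2⟩⟩
  loopless := ⟨fun _ h => h.1 rfl⟩

lemma thr_isThr {V : Type} (a : V → ℤ) : IsKThr 1 (thr a) := by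
  refine ⟨fun _ => 0, Subsingleton.strictMono _, fun v => a v, ?_⟩
  intro v w hvw
  have h1 : (0 : ℝ) ≤ (a v : ℝ) + a w ↔ 0 ≤ a v + a w := by exact_mod_cast Iff.rfl
  by_cases h : 0 ≤ a v + a w
  · have h2 := h1.2 h
    simp [thr, hvw, h, h2]
  · have h2 : ¬ (0 : ℝ) ≤ (a v : ℝ) + a w := fun h' => h (h1.1 h')
    simp [thr, h, h2]

lemma thr_compl_isThr {V : Type} (a : V → ℤ) : IsKThr 1 (thr a)ᶜ := by
  refine ⟨fun _ => 1, Subsingleton.strictMono _, fun v => -(a v : ℝ), ?_⟩
  intro v w hvw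
  have h1 : (1 : ℝ) ≤ -(a v : ℝ) + -(a w : ℝ) ↔ ¬ 0 ≤ a v + a w := by
    rw [not_le]
    have : (1 : ℝ) ≤ -(a v : ℝ) + -(a w : ℝ) ↔ (1 : ℤ) ≤ -a v + -a w := by exact_mod_cast Iff.rfl
    rw [this]
    omega
  by_cases h : 0 ≤ a v + a w
  · have h2 : ¬ (1 : ℝ) ≤ -(a v : ℝ) + -(a w : ℝ) := fun h' => (h1.1 h') h
    simp [thr, hvw, h, h2]
  · have h2 := h1.2 h
    simp [thr, hvw, h, h2]

/-- The split graph of intervals: the intersection of two threshold graphs. -/
def GI (h : ℕ) : SimpleGraph (Fin (2 * h) ⊕ (Fin h × Fin h)) := thr (ra h) ⊓ thr (rb h)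

lemma GI_adj (h : ℕ) (w : Fin (2 * h)) (p : Fin h × Fin h) :
    (GI h).Adj (Sum.inr p) (Sum.inl w) ↔ (p.1 : ℕ) ≤ w ∧ (w : ℕ) ≤ h + p.2 := by
  simp only [GI, thr, SimpleGraph.inf_adj, ra, rb]
  constructor
  · rintro ⟨⟨_, h1⟩, _, h2⟩
    constructor <;> omega
  · rintro ⟨h1, h2⟩
    refine ⟨⟨by simp, by omega⟩, by simp, by omega⟩

lemma GI_not (h k : ℕ) (hh : 1 < h) (hk : 2 * k + 1 ≤ h) : ¬ IsKThr k (GI h) := by
  rintro ⟨θ, _, r, hr⟩
  have hb := inj_bound k θ (fun w : Fin (2 * h) => r (Sum.inl w))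
    (fun p : Fin h × Fin h => r (Sum.inr p)) (by
    intro p q hpq
    have hadj : ∀ w : Fin (2 * h), (((p.1 : ℕ) ≤ w ∧ (w : ℕ) ≤ h + p.2) ↔
        ((q.1 : ℕ) ≤ w ∧ (w : ℕ) ≤ h + q.2)) := by
      intro w
      rw [← GI_adj, ← GI_adj, hr _ _ (by simp), hr _ _ (by simp)]
      exact hpq w
    have hp1 := p.1.isLt
    have hp2 := p.2.isLt
    have hq1 := q.1.isLt
    have hq2 := q.2.isLt
    have a1 := (hadj ⟨p.1, by omega⟩).1 ⟨le_rfl, by show (p.1 : ℕ) ≤ h + p.2; omega⟩
    have a2 := (hadj ⟨q.1, by omega⟩).2 ⟨le_rfl, by show (q.1 : ℕ) ≤ h + q.2; omega⟩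
    have a3 := (hadj ⟨h + p.2, by omega⟩).1 ⟨by show (p.1 : ℕ) ≤ h + p.2; omega, le_rfl⟩
    have a4 := (hadj ⟨h + q.2, by omega⟩).2 ⟨by show (q.1 : ℕ) ≤ h + q.2; omega, le_rfl⟩
    simp only at a1 a2 a3 a4
    apply Prod.ext
    · apply Fin.ext; omega
    · apply Fin.ext; omega)
  rw [Fintype.card_prod, Fintype.card_fin, Fintype.card_fin] at hb
  nlinarith

end Q105.Thresh
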