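import Pool.Agent.Q105.Thresh

set_option autoImplicit false

/-!
# Threshold dimension of the complement of the interval split graph
-/

open Finset

namespace Q105.Thresh

/-- `G` is a union of `k` threshold graphs on its vertex set. -/
def IsCover {V : Type} (k : ℕ) (G : SimpleGraph V) : Prop :=
  ∃ H : Fin k → SimpleGraph V, (∀ i, IsKThr 1 (H i)) ∧ ∀ v w, G.Adj v w ↔ ∃ i, (H i).Adj v w

/-- The threshold dimension. -/
noncomputable def thresholdDim {V : Type} (G : SimpleGraph V) : ℕ := sInf {k | IsCover k G}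

lemma bot_thr {V : Type} (G : SimpleGraph V) (h : ∀ v w, ¬ G.Adj v w) : IsKThr 0 G := by
  refine ⟨Fin.elim0, Subsingleton.strictMono _, fun _ => 0, fun v w _ => ?_⟩
  simp [h v w]

lemma dim_eq_two (h : ℕ) (hh : 5 ≤ h) : thresholdDim (GI h)ᶜ = 2 := by
  have h2 : IsCover 2 (GI h)ᶜ := by
    refine ⟨![(thr (ra h))ᶜ, (thr (rb h))ᶜ], ?_, ?_⟩
    · intro i
      fin_cases i
      · exact thr_compl_isThr _
      · exact thr_compl_isThr _
    · intro v w
      rw [Fin.exists_fin_two]
      simp only [Matrix.cons_val_zero, Matrix.cons_val_one, SimpleGraph.compl_adj, GI,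
        SimpleGraph.inf_adj]
      tauto
  have h0 : ¬ IsCover 0 (GI h)ᶜ := by
    rintro ⟨H, _, hH⟩
    have := thr_compl 0 (GI h)ᶜ (bot_thr _ fun v w hvw => by
      obtain ⟨i, _⟩ := (hH v w).1 hvw
      exact i.elim0)
    rw [compl_compl] at this
    exact GI_not h _ (by omega) (by omega) this
  have h1 : ¬ IsCover 1 (GI h)ᶜ := by
    rintro ⟨H, hH1, hH⟩
    have e : (GI h)ᶜ = H 0 := by
      ext v w
      rw [hH v w]
      constructor
      · rintro ⟨i, hi⟩
        have : i = 0 := Subsingleton.elim _ _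
        rwa [this] at hi
      · intro hi; exact ⟨0, hi⟩
    have := thr_compl 1 (GI h)ᶜ (by rw [e]; exact hH1 0)
    rw [compl_compl] at this
    exact GI_not h _ (by omega) (by omega) this
  unfold thresholdDim
  apply le_antisymm
  · exact Nat.sInf_le h2
  · have hmem : sInf {k | IsCover k (GI h)ᶜ} ∈ {k | IsCover k (GI h)ᶜ} :=
      Nat.sInf_mem ⟨2, h2⟩
    by_contra hcon
    rw [not_le] at hcon
    generalize sInf {k | IsCover k (GI h)ᶜ} = n at hmem hcon
    interval_cases n
    · exact h0 hmem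
    · exact h1 hmem

end Q105.Thresh
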