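import Mathlib

set_option autoImplicit false

/-!
# A weighted digraph with large in- and out-weights and only light cycles

The tree digraph: the root has four children, every child has three leaves; the arcs are
root to child (weight 15/60), child to leaf (20/60), leaf to root (21/60), leaf to parent (39/60).
Every vertex has out-weight exactly 1 and every cycle has weight at most 59/60.
Gluing it with its reverse gives the counterexample.
-/

open Finset

namespace Q105.WCycle

/-- Vertices of the tree: `none` is the root, `some (i, none)` the children,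
`some (i, some l)` the leaves. -/
abbrev T : Type := Option (Fin 4 × Option (Fin 3))

/-- Sixty times the weight of the arc. -/
def a : T → T → ℕ
  | none, some (_, none) => 15
  | some (i, none), some (j, some _) => if i = j then 20 else 0
  | some (_, some _), none => 21
  | some (i, some _), some (j, none) => if i = j then 39 else 0
  | _, _ => 0

lemma a_self : ∀ x : T, a x x = 0 := by decide

lemma a_le : ∀ x y : T, a x y ≤ 60 := by decide

lemma a_out : ∀ x : T, ∑ y, a x y = 60 := by decide

lemma two_cycle : ∀ x y : T, a x y + a y x < 60 := by decide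

lemma three_cycle : ∀ x y : T, a x y ≠ 0 → ∀ z, a y z ≠ 0 → a z x ≠ 0 →
    a x y + a y z + a z x < 60 := by decide

lemma from_root (y : T) (h : a none y ≠ 0) : ∃ i, y = some (i, none) := by
  revert h; revert y; decide

lemma from_child (i : Fin 4) (y : T) (h : a (some (i, none)) y ≠ 0) :
    ∃ l, y = some (i, some l) := by
  revert h; revert y; revert i; decide

lemma from_leaf (i : Fin 4) (l : Fin 3) (y : T) (h : a (some (i, some l)) y ≠ 0) :
    y = none ∨ y = some (i, none) := by
  revert h; revert y; revert l; revert i; decide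

lemma exists_child {k : ℕ} (c : Fin (k + 2) → T) (h : ∀ i, a (c i) (c (i + 1)) ≠ 0) :
    ∃ i x, c i = some (x, none) := by
  rcases h0 : c 0 with _ | ⟨x, _ | l⟩
  · obtain ⟨x, hx⟩ := from_root (c (0 + 1)) (by rw [← h0]; exact h 0)
    exact ⟨_, x, hx⟩
  · exact ⟨0, x, h0⟩
  · rcases from_leaf x l (c (0 + 1)) (by rw [← h0]; exact h 0) with h1 | h1
    · obtain ⟨x, hx⟩ := from_root (c (0 + 1 + 1)) (by rw [← h1]; exact h (0 + 1))
      exact ⟨_, x, hx⟩
    · exact ⟨_, x, h1⟩

lemma two_eq_zero {k : ℕ} (h : (1 + 1 : Fin (k + 2)) = 0) : k = 0 := by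
  have := congrArg Fin.val h
  rw [Fin.val_add, Fin.val_one, Fin.val_zero] at this
  have h2 : k + 2 ∣ 2 := Nat.dvd_of_mod_eq_zero this
  have := Nat.le_of_dvd (by norm_num) h2
  omega

lemma three_eq_zero {k : ℕ} (h : (1 + 1 + 1 : Fin (k + 2)) = 0) : k = 1 := by
  rcases k with _ | k
  · exact absurd h (by decide)
  · have := congrArg Fin.val h
    rw [Fin.val_add, Fin.val_add, Fin.val_one, Fin.val_zero, Nat.add_mod, Nat.mod_mod] at this
    rw [← Nat.add_mod] at this
    have h2 : k + 1 + 2 ∣ 3 := Nat.dvd_of_mod_eq_zero this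
    have := Nat.le_of_dvd (by norm_num) h2
    omega

lemma short {k : ℕ} (c : Fin (k + 2) → T) (hc : Function.Injective c)
    (h : ∀ i, a (c i) (c (i + 1)) ≠ 0) : k = 0 ∨ k = 1 := by
  obtain ⟨i, x, hi⟩ := exists_child c h
  obtain ⟨l, h1⟩ := from_child x (c (i + 1)) (by rw [← hi]; exact h i)
  rcases from_leaf x l (c (i + 1 + 1)) (by rw [← h1]; exact h _) with h2 | h2
  · obtain ⟨y, h3⟩ := from_root (c (i + 1 + 1 + 1)) (by rw [← h2]; exact h _)
    obtain ⟨l', h4⟩ := from_child y (c (i + 1 + 1 + 1 + 1)) (by rw [← h3]; exact h _)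
    rcases from_leaf y l' (c (i + 1 + 1 + 1 + 1 + 1)) (by rw [← h4]; exact h _) with h5 | h5
    · right
      have := hc (h5.trans h2.symm)
      apply three_eq_zero
      have e : i + 1 + 1 + 1 + 1 + 1 = (i + 1 + 1) + (1 + 1 + 1) := by abel
      rw [e] at this
      exact left_eq_add.1 this.symm
    · left
      have := hc (h5.trans h3.symm)
      apply two_eq_zero
      have e : i + 1 + 1 + 1 + 1 + 1 = (i + 1 + 1 + 1) + (1 + 1) := by abel
      rw [e] at this
      exact left_eq_add.1 this.symm
  · left
    have := hc (h2.trans hi.symm)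
    apply two_eq_zero
    rw [add_assoc] at this
    exact left_eq_add.1 this.symm

lemma light {k : ℕ} (c : Fin (k + 2) → T) (hc : Function.Injective c)
    (h : ∀ i, a (c i) (c (i + 1)) ≠ 0) : ∑ i, a (c i) (c (i + 1)) < 60 := by
  rcases short c hc h with rfl | rfl
  · rw [Fin.sum_univ_two]
    exact two_cycle _ _
  · rw [Fin.sum_univ_three]
    exact three_cycle _ _ (h 0) _ (h 1) (h 2)

lemma light_rev {k : ℕ} (c : Fin (k + 2) → T) (hc : Function.Injective c)
    (h : ∀ i, a (c (i + 1)) (c i) ≠ 0) : ∑ i, a (c (i + 1)) (c i) < 60 := by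
  have h1 := light (fun i => c (-i)) (fun i j hij => neg_injective (hc hij)) (fun i => by
    have := h (-(i + 1))
    have e : -(i + 1) + 1 = -i := by abel
    rwa [e] at this)
  refine lt_of_eq_of_lt ?_ h1
  refine Fintype.sum_equiv ((Equiv.addRight 1).trans (Equiv.neg _)) _ _ fun i => ?_
  simp only [Equiv.trans_apply, Equiv.coe_addRight, Equiv.neg_apply]
  congr 2
  · abel_nf
  · abel_nf

/-- Sixty times the weights of the glued digraph. -/
def b : Bool × T → Bool × T → ℕ
  | (false, x), (false, y) => a x y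
  | (true, x), (true, y) => a y x
  | (true, x), (false, y) => if x = y then 60 else 0
  | (false, _), (true, _) => 0

lemma b_le (u v : Bool × T) : b u v ≤ 60 := by
  rcases u with ⟨_ | _, x⟩ <;> rcases v with ⟨_ | _, y⟩
  · exact a_le x y
  · exact Nat.zero_le _
  · show (if x = y then 60 else 0) ≤ 60
    split_ifs <;> norm_num
  · exact a_le y x

lemma b_self (u : Bool × T) : b u u = 0 := by
  rcases u with ⟨_ | _, x⟩
  · exact a_self x
  · exact a_self x

lemma b_out (u : Bool × T) : 60 ≤ ∑ v, b u v := by
  rw [Fintype.sum_prod_type, Fintype.sum_bool]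
  rcases u with ⟨_ | _, x⟩
  · refine le_trans ?_ (Nat.le_add_left _ _)
    exact (a_out x).ge
  · refine le_trans ?_ (Nat.le_add_left _ _)
    have : b (true, x) (false, x) = 60 := by simp [b]
    rw [← this]
    exact Finset.single_le_sum (f := fun y => b (true, x) (false, y))
      (fun _ _ => Nat.zero_le _) (Finset.mem_univ x)

lemma b_in (u : Bool × T) : 60 ≤ ∑ v, b v u := by
  rw [Fintype.sum_prod_type, Fintype.sum_bool]
  rcases u with ⟨_ | _, x⟩
  · refine le_trans ?_ (Nat.le_add_right _ _)
    have : b (true, x) (false, x) = 60 := by simp [b]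
    rw [← this]
    exact Finset.single_le_sum (f := fun y => b (true, y) (false, x))
      (fun _ _ => Nat.zero_le _) (Finset.mem_univ x)
  · refine le_trans ?_ (Nat.le_add_right _ _)
    exact (a_out x).ge

lemma side {k : ℕ} (c : Fin (k + 2) → Bool × T) (h : ∀ i, b (c i) (c (i + 1)) ≠ 0) :
    ∀ i, (c i).1 = (c 0).1 := by
  have hmono : ∀ i, (c i).1 = false → (c (i + 1)).1 = false := by
    intro i hi
    have := h i
    rcases hx : c i with ⟨_ | _, x⟩
    · rcases hy : c (i + 1) with ⟨_ | _, y⟩
      · rfl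
      · rw [hx, hy] at this
        exact absurd rfl this
    · rw [hx] at hi
      exact absurd hi (by simp)
  have hall : ∀ i, (c i).1 = false → ∀ n : ℕ, (c (i + n • (1 : Fin (k + 2)))).1 = false := by
    intro i hi n
    induction n with
    | zero => rw [zero_smul, add_zero]; exact hi
    | succ n ih =>
      rw [succ_nsmul, ← add_assoc]
      exact hmono _ ih
  have hval : ∀ n : ℕ, ∀ h : n < k + 2, n • (1 : Fin (k + 2)) = ⟨n, h⟩ := by
    intro n
    induction n with
    | zero => intro h; rw [zero_smul]; rfl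
    | succ n ih =>
      intro h
      rw [succ_nsmul, ih (by omega)]
      apply Fin.ext
      rw [Fin.val_add, Fin.val_one]
      exact Nat.mod_eq_of_lt h
  have hall' : ∀ i j, (c i).1 = false → (c j).1 = false := by
    intro i j hi
    have := hall i hi (j - i : Fin (k + 2)).val
    rw [hval _ (j - i : Fin (k + 2)).isLt] at this
    have e : i + ⟨(j - i : Fin (k + 2)).val, (j - i : Fin (k + 2)).isLt⟩ = j := by
      rw [Fin.eta]; abel
    rwa [e] at this
  intro i
  rcases h0 : (c 0).1 with _ | _
  · exact hall' 0 i h0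
  · rcases hi : (c i).1 with _ | _
    · rw [hall' i 0 hi] at h0
      exact absurd h0 (by simp)
    · rfl

lemma b_light {k : ℕ} (c : Fin (k + 2) → Bool × T) (hc : Function.Injective c)
    (h : ∀ i, b (c i) (c (i + 1)) ≠ 0) : ∑ i, b (c i) (c (i + 1)) < 60 := by
  have hs := side c h
  rcases h0 : (c 0).1 with _ | _
  · have e : ∀ i, c i = (false, (c i).2) := fun i => Prod.ext ((hs i).trans h0) rfl
    have e2 : ∀ i, b (c i) (c (i + 1)) = a (c i).2 (c (i + 1)).2 := fun i => by
      rw [e i, e (i + 1)]; rfl
    simp_rw [e2] at h ⊢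
    exact light (fun i => (c i).2) (fun i j hij => hc (by rw [e i, e j]; exact congrArg _ hij)) h
  · have e : ∀ i, c i = (true, (c i).2) := fun i => Prod.ext ((hs i).trans h0) rfl
    have e2 : ∀ i, b (c i) (c (i + 1)) = a (c (i + 1)).2 (c i).2 := fun i => by
      rw [e i, e (i + 1)]; rfl
    simp_rw [e2] at h ⊢
    exact light_rev (fun i => (c i).2) (fun i j hij => hc (by rw [e i, e j]; exact congrArg _ hij)) h

theorem final : ¬ (∀ (V : Type) [Fintype V] [Nonempty V] (G : Digraph V) (p : V → V → ℝ),
      (∀ v, ¬ G.Adj v v) →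
      (∀ u v, 0 ≤ p u v ∧ p u v ≤ 1) →
      (∀ u v, ¬ G.Adj u v → p u v = 0) →
      (∀ u, 1 ≤ ∑ v, p u v) →
      (∀ u, 1 ≤ ∑ v, p v u) →
      ∃ (k : ℕ) (c : Fin (k + 2) → V),
        Function.Injective c ∧
        (∀ i, G.Adj (c i) (c (i + 1))) ∧
        1 ≤ ∑ i, p (c i) (c (i + 1))) := by
  intro H
  obtain ⟨k, c, hc, hadj, hsum⟩ := H (Bool × T) ⟨fun u v => b u v ≠ 0⟩ (fun u v => (b u v : ℝ) / 60)
    (fun v hv => hv (b_self v))
    (fun u v => ⟨by positivity, by
      rw [div_le_one (by norm_num)]
      exact_mod_cast b_le u v⟩)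
    (fun u v h => by
      have : b u v = 0 := by
        by_contra h'
        exact h h'
      rw [this]; simp)
    (fun u => by
      rw [← Finset.sum_div, le_div_iff₀ (by norm_num), one_mul]
      exact_mod_cast b_out u)
    (fun u => by
      rw [← Finset.sum_div, le_div_iff₀ (by norm_num), one_mul]
      exact_mod_cast b_in u)
  have h1 := b_light c hc hadj
  rw [← Finset.sum_div, le_div_iff₀ (by norm_num), one_mul] at hsum
  have h2 : (60 : ℕ) ≤ ∑ i, b (c i) (c (i + 1)) := by exact_mod_cast hsum
  omega

end Q105.WCycle
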